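import Mathlib
set_option autoImplicit false

/-!
Descent for the form `P0² + P1² + 7 (P2² + P3²)`.
-/

namespace Pool.Agent.Y94.Desc

theorem seven_dvd {a b : ℤ} (h : (7 : ℤ) ∣ a ^ 2 + b ^ 2) : (7 : ℤ) ∣ a ∧ (7 : ℤ) ∣ b := by
  have h1 : (a ^ 2 + b ^ 2) % 7 = 0 := Int.emod_eq_zero_of_dvd h
  have ha : a % 7 = 0 ∨ a % 7 = 1 ∨ a % 7 = 2 ∨ a % 7 = 3 ∨ a % 7 = 4 ∨ a % 7 = 5 ∨ a % 7 = 6 := by
    omega
  have hb : b % 7 = 0 ∨ b % 7 = 1 ∨ b % 7 = 2 ∨ b % 7 = 3 ∨ b % 7 = 4 ∨ b % 7 = 5 ∨ b % 7 = 6 := by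
    omega
  rcases ha with ha | ha | ha | ha | ha | ha | ha <;>
  rcases hb with hb | hb | hb | hb | hb | hb | hb <;>
  simp [pow_two, Int.add_emod, Int.mul_emod, ha, hb] at h1 ⊢ <;>
  omega

theorem base {a b c d N : ℤ} (h : a ^ 2 + b ^ 2 + 7 * (c ^ 2 + d ^ 2) = N) (hN : N ∣ 8)
    (h1 : (8 : ℤ) ∣ 2 * a - b - 2 * c - d) (h2 : (8 : ℤ) ∣ a + 2 * b - 2 * d + c) : False := by
  have hN8 : N ≤ 8 := Int.le_of_dvd (by norm_num) hN
  have hN0 : N ≠ 0 := by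
    rintro rfl
    simp at hN
  have ha1 : -2 ≤ a := by nlinarith [sq_nonneg (a + 2), sq_nonneg b, sq_nonneg c, sq_nonneg d]
  have ha2 : a ≤ 2 := by nlinarith [sq_nonneg (a + 2), sq_nonneg b, sq_nonneg c, sq_nonneg d]
  have hb1 : -2 ≤ b := by nlinarith [sq_nonneg (a + 2), sq_nonneg a, sq_nonneg c, sq_nonneg d]
  have hb2 : b ≤ 2 := by nlinarith [sq_nonneg (a + 2), sq_nonneg a, sq_nonneg c, sq_nonneg d]
  have hc1 : -1 ≤ c := by nlinarith [sq_nonneg b, sq_nonneg a, sq_nonneg c, sq_nonneg d]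
  have hc2 : c ≤ 1 := by nlinarith [sq_nonneg b, sq_nonneg a, sq_nonneg c, sq_nonneg d]
  have hd1 : -1 ≤ d := by nlinarith [sq_nonneg b, sq_nonneg a, sq_nonneg c, sq_nonneg d]
  have hd2 : d ≤ 1 := by nlinarith [sq_nonneg b, sq_nonneg a, sq_nonneg c, sq_nonneg d]
  interval_cases c <;> interval_cases d <;> interval_cases a <;> interval_cases b <;> omega

theorem descent (N : ℤ) (hN : N ∣ 8) (k : ℕ) : ∀ a b c d : ℤ,
    a ^ 2 + b ^ 2 + 7 * (c ^ 2 + d ^ 2) = 7 ^ k * N →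
    (8 : ℤ) ∣ 2 * a - b - 2 * c - d → (8 : ℤ) ∣ a + 2 * b - 2 * d + c → False := by
  induction k with
  | zero =>
    intro a b c d h h1 h2
    rw [pow_zero, one_mul] at h
    exact base h hN h1 h2
  | succ k ih =>
    intro a b c d h h1 h2
    have h3 : (7 : ℤ) ∣ a ^ 2 + b ^ 2 :=
      ⟨7 ^ k * N - (c ^ 2 + d ^ 2), by linear_combination h⟩
    obtain ⟨⟨a', rfl⟩, ⟨b', rfl⟩⟩ := seven_dvd h3
    refine ih c (-d) (-a') b' ?_ ?_ ?_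
    · have : (7 : ℤ) * (c ^ 2 + (-d) ^ 2 + 7 * ((-a') ^ 2 + b' ^ 2)) = 7 * (7 ^ k * N) := by
        linear_combination h
      exact mul_left_cancel₀ (by norm_num) this
    · omega
    · omega

theorem main {a b c d n1 n2 : ℤ} {k : ℕ}
    (h1 : (a ^ 2 + b ^ 2 + 7 * (c ^ 2 + d ^ 2)) * n1 = 7 ^ k * 64)
    (h2 : (a ^ 2 + b ^ 2 + 7 * (c ^ 2 + d ^ 2)) * n2 = 7 ^ k * 40)
    (h3 : (8 : ℤ) ∣ 2 * a - b - 2 * c - d) (h4 : (8 : ℤ) ∣ a + 2 * b - 2 * d + c) : False := by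
  set N := a ^ 2 + b ^ 2 + 7 * (c ^ 2 + d ^ 2) with hN
  have hN0 : N ≠ 0 := by
    intro h
    rw [h, zero_mul] at h1
    have : (7 : ℤ) ^ k * 64 ≠ 0 := by positivity
    exact this h1.symm
  have hNn : N.natAbs ≠ 0 := Int.natAbs_ne_zero.2 hN0
  obtain ⟨e, c', hc', he⟩ := Nat.exists_eq_pow_mul_and_not_dvd hNn 7 (by norm_num)
  have hcop : Nat.Coprime c' (7 ^ k) :=
    Nat.Coprime.pow_right _ (((Nat.Prime.coprime_iff_not_dvd (by norm_num)).2 hc').symm)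
  have hd1 : c' ∣ 64 := by
    have h5 : N.natAbs ∣ 7 ^ k * 64 := by
      have := Int.natAbs_dvd_natAbs.2 (Dvd.intro _ h1)
      rwa [Int.natAbs_mul, Int.natAbs_pow] at this
    exact hcop.dvd_of_dvd_mul_left ((Dvd.intro_left _ he.symm).trans h5)
  have hd2 : c' ∣ 40 := by
    have h5 : N.natAbs ∣ 7 ^ k * 40 := by
      have := Int.natAbs_dvd_natAbs.2 (Dvd.intro _ h2)
      rwa [Int.natAbs_mul, Int.natAbs_pow] at this
    exact hcop.dvd_of_dvd_mul_left ((Dvd.intro_left _ he.symm).trans h5)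
  have hd3 : (c' : ℤ) ∣ 8 := by
    have : c' ∣ Nat.gcd 64 40 := Nat.dvd_gcd hd1 hd2
    have h6 : Nat.gcd 64 40 = 8 := by norm_num
    rw [h6] at this
    exact_mod_cast this
  have hpos : 0 ≤ N := by
    rw [hN]
    positivity
  refine descent (c' : ℤ) hd3 e a b c d ?_ h3 h4
  rw [← hN, ← abs_of_nonneg hpos, Int.abs_eq_natAbs, he]
  push_cast
  rfl

end Pool.Agent.Y94.Desc
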