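import Pool.Agent.Y94.Fox
import Pool.Agent.Y94.Desc
import Pool.Agent.Y524.StatementI
set_option autoImplicit false

/-!
The order `ℤ[1/7]⟨i, x⟩`, `i² = -1`, `x² = -7`, `i x = - x i`, and the irreducible generating
tuple.
-/

namespace Pool.Agent.Y94.Quat

open Pool.Agent.Y94.Fox

/-- `ℤ[1/7]` -/
abbrev R7 := Localization.Away (7 : ℤ)

/-- the order -/
abbrev S7 := QuaternionAlgebra R7 (-1) 0 (-7)

/-- `1/7` -/
noncomputable def c7 : R7 := IsLocalization.Away.invSelf (7 : ℤ)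

theorem c7_mul : (7 : R7) * c7 = 1 := by
  have h := IsLocalization.Away.mul_invSelf (S := R7) (7 : ℤ)
  have e : algebraMap ℤ R7 7 = 7 := by simp
  rw [e] at h
  exact h

instance : IsDomain R7 := IsLocalization.isDomain_localization (M := Submonoid.powers (7 : ℤ)) (by
  rintro _ ⟨k, rfl⟩
  exact mem_nonZeroDivisors_of_ne_zero (by positivity))

theorem cast_inj : Function.Injective (Int.cast : ℤ → R7) := by
  have h := IsLocalization.injective R7 (M := Submonoid.powers (7 : ℤ)) (by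
    rintro _ ⟨k, rfl⟩
    exact mem_nonZeroDivisors_of_ne_zero (by positivity))
  intro a b hab
  apply h
  simpa using hab

theorem exists_clear (r : R7) : ∃ k : ℕ, ∀ K, k ≤ K → ∃ z : ℤ, (7 : R7) ^ K * r = z := by
  obtain ⟨k, a, h⟩ := IsLocalization.Away.surj (7 : ℤ) r
  refine ⟨k, fun K hK => ?_⟩
  obtain ⟨l, rfl⟩ := Nat.exists_eq_add_of_le hK
  refine ⟨7 ^ l * a, ?_⟩
  have e : algebraMap ℤ R7 7 = 7 := by simp
  rw [e] at h
  have h2 : algebraMap ℤ R7 a = (a : R7) := by simp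
  rw [h2] at h
  push_cast
  rw [← h]
  ring

/-- the unit `i` -/
def ei : S7ˣ where
  val := ⟨0, 1, 0, 0⟩
  inv := ⟨0, -1, 0, 0⟩
  val_inv := by
    ext
    · simp
      ring
    · simp
    · simp
    · simp
  inv_val := by
    ext
    · simp
      ring
    · simp
    · simp
    · simp

/-- the unit `x` -/
noncomputable def ex : S7ˣ where
  val := ⟨0, 0, 1, 0⟩
  inv := ⟨0, 0, -c7, 0⟩
  val_inv := by
    ext
    · simp
      linear_combination c7_mul
    · simp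
    · simp
    · simp
  inv_val := by
    ext
    · simp
      linear_combination c7_mul
    · simp
    · simp
    · simp

/-- `2 + i` -/
def ea : S7 := ⟨2, 1, 0, 0⟩
/-- `1 + x` -/
def eb : S7 := ⟨1, 0, 1, 0⟩

/-- the norm -/
noncomputable def nrm (s : S7) : R7 := s.re ^ 2 + s.imI ^ 2 + 7 * (s.imJ ^ 2 + s.imK ^ 2)

theorem nrm_mul (s t : S7) : nrm (s * t) = nrm s * nrm t := by
  unfold nrm
  simp only [QuaternionAlgebra.re_mul, QuaternionAlgebra.imI_mul, QuaternionAlgebra.imJ_mul,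
    QuaternionAlgebra.imK_mul]
  ring

theorem abs_rel {S : Type*} [Ring S] {p q l2 l3 a b bb k8 k5 p' : S} (h1 : p * a + q * b = 0)
    (h2 : p * l2 + q * l3 = 1) (e8 : b * bb = k8) (c8 : ∀ s, k8 * s = s * k8)
    (e5 : p' * a = k5 * b) :
    p * (k8 * l2 - a * bb * l3) = k8 ∧
      p' * (k8 * l2 - a * bb * l3) = k8 * (p' * l2 - k5 * l3) := by
  have h3 : p * (a * bb) = -(k8 * q) := by
    have h4 : p * a = -(q * b) := eq_neg_of_add_eq_zero_left h1
    rw [← mul_assoc, h4, neg_mul, mul_assoc, e8, c8]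
  constructor
  · have h6 : p * (k8 * l2 - a * bb * l3) = k8 * (p * l2 + q * l3) := by
      rw [mul_sub, ← mul_assoc p k8, ← c8, ← mul_assoc p (a * bb), h3]
      noncomm_ring
    rw [h6, h2, mul_one]
  · rw [mul_sub, mul_sub, ← mul_assoc p' k8, ← c8, ← mul_assoc p' (a * bb), ← mul_assoc p' a, e5,
      mul_assoc k5, e8, ← c8, mul_assoc, mul_assoc]

/-- `8` -/
def k8 : S7 := ⟨8, 0, 0, 0⟩
/-- `5` -/
def k5 : S7 := ⟨5, 0, 0, 0⟩
/-- `1 - x` -/
def bb : S7 := ⟨1, 0, -1, 0⟩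
/-- `(2 - i) + (2 + i) x` -/
def pp : S7 := ⟨2, -1, 2, 1⟩

theorem k8_comm (s : S7) : k8 * s = s * k8 := by
  ext
  · simp [k8]
    ring
  · simp [k8]
    ring
  · simp [k8]
    ring
  · simp [k8]
    ring

theorem eb_bb : eb * bb = k8 := by
  ext
  · simp [eb, bb, k8]
    ring
  · simp [eb, bb, k8]
  · simp [eb, bb, k8]
  · simp [eb, bb, k8]

theorem pp_ea : pp * ea = k5 * eb := by
  ext
  · simp [ea, eb, pp, k5]
    ring
  · simp [ea, eb, pp, k5]
    ring
  · simp [ea, eb, pp, k5]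
    ring
  · simp [ea, eb, pp, k5]

theorem nrm_k8 : nrm k8 = 64 := by
  unfold nrm k8
  ring

theorem nrm_pp : nrm pp = 40 := by
  unfold nrm pp
  ring

theorem norms {p q l2 l3 : S7} (h1 : p * ea + q * eb = 0) (h2 : p * l2 + q * l3 = 1) :
    ∃ κ σ : S7, nrm p * nrm κ = 64 ∧ nrm p * nrm σ = 40 := by
  obtain ⟨h5, h7⟩ := abs_rel h1 h2 eb_bb k8_comm pp_ea
  refine ⟨k8 * l2 - ea * bb * l3, pp * l2 - k5 * l3, ?_, ?_⟩
  · rw [← nrm_mul, h5, nrm_k8]
  · have n1 : nrm p * nrm (k8 * l2 - ea * bb * l3) = 64 := by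
      rw [← nrm_mul, h5, nrm_k8]
    have h8 : 40 * nrm (k8 * l2 - ea * bb * l3) = 64 * nrm (pp * l2 - k5 * l3) := by
      rw [← nrm_pp, ← nrm_k8, ← nrm_mul, h7, nrm_mul]
    have h10 : (64 : R7) * (nrm p * nrm (pp * l2 - k5 * l3)) = 64 * 40 := by
      linear_combination -(nrm p) * h8 + 40 * n1
    have h64 : (64 : R7) ≠ 0 := by
      intro h
      have h11 : ((64 : ℤ) : R7) = ((0 : ℤ) : R7) := by
        push_cast
        exact h
      have h12 := cast_inj h11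
      norm_num at h12
    exact mul_left_cancel₀ h64 h10

/-- The ring theoretic half: there is no unimodular row that kills the column `(2 + i, 1 + x)`. -/
theorem no_row {p q l2 l3 : S7} (h1 : p * ea + q * eb = 0) (h2 : p * l2 + q * l3 = 1) : False := by
  obtain ⟨κ, σ, n1, n2⟩ := norms h1 h2
  obtain ⟨m0, hm0⟩ := exists_clear p.re
  obtain ⟨m1, hm1⟩ := exists_clear p.imI
  obtain ⟨m2, hm2⟩ := exists_clear p.imJ
  obtain ⟨m3, hm3⟩ := exists_clear p.imK
  obtain ⟨m4, hm4⟩ := exists_clear q.re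
  obtain ⟨m5, hm5⟩ := exists_clear q.imI
  obtain ⟨m6, hm6⟩ := exists_clear (nrm κ)
  obtain ⟨m7, hm7⟩ := exists_clear (nrm σ)
  obtain ⟨K, hK⟩ : ∃ K, K = m0 + m1 + m2 + m3 + m4 + m5 + m6 + m7 := ⟨_, rfl⟩
  have hN : nrm p = p.re ^ 2 + p.imI ^ 2 + 7 * (p.imJ ^ 2 + p.imK ^ 2) := rfl
  rw [hN] at n1 n2
  obtain ⟨p0, hp0⟩ := hm0 K (by omega)
  obtain ⟨p1, hp1⟩ := hm1 K (by omega)
  obtain ⟨p2, hp2⟩ := hm2 K (by omega)
  obtain ⟨p3, hp3⟩ := hm3 K (by omega)
  obtain ⟨q0, hq0⟩ := hm4 K (by omega)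
  obtain ⟨q1, hq1⟩ := hm5 K (by omega)
  obtain ⟨k, hk⟩ := hm6 K (by omega)
  obtain ⟨s, hs⟩ := hm7 K (by omega)
  -- the relation `8 q = - p a (1 - x)`
  have h3 : p * (ea * bb) + k8 * q = 0 := by
    have h4 := congrArg (fun t => t * bb) h1
    simp only [add_mul, zero_mul, mul_assoc, eb_bb] at h4
    rw [k8_comm]
    exact h4
  have r0 := congrArg QuaternionAlgebra.re h3
  have r1 := congrArg QuaternionAlgebra.imI h3
  simp [ea, bb, k8] at r0 r1
  refine Pool.Agent.Y94.Desc.main (a := p0) (b := p1) (c := p2) (d := p3) (n1 := k) (n2 := s)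
    (k := 3 * K) ?_ ?_ ?_ ?_
  · apply cast_inj
    push_cast
    rw [← hp0, ← hp1, ← hp2, ← hp3, ← hk]
    linear_combination (7 ^ (3 * K)) * n1
  · apply cast_inj
    push_cast
    rw [← hp0, ← hp1, ← hp2, ← hp3, ← hs]
    linear_combination (7 ^ (3 * K)) * n2
  · refine ⟨-q0 - 2 * p2 - p3, ?_⟩
    apply cast_inj
    push_cast
    rw [← hp0, ← hp1, ← hp2, ← hp3, ← hq0]
    linear_combination (7 ^ K) * r0
  · refine ⟨-q1 - 2 * p3 + p2, ?_⟩
    apply cast_inj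
    push_cast
    rw [← hp0, ← hp1, ← hp2, ← hp3, ← hq1]
    linear_combination (7 ^ K) * r1

open Pool.Agent.Y524 in
theorem partI : PartI := by
  have hUa : Ua (tt1 ei ex) (tt2 ei ex) (ss ei ex 1) = ss ei ex ea := by
    unfold Ua
    rw [tt1_conj, ss_mul, ss_mul]
    congr 1
    ext
    · simp [ea, ei]
      ring
    · simp [ea, ei]
    · simp [ea, ei]
    · simp [ea, ei]
  have hUb : Ub (tt1 ei ex) (tt2 ei ex) (ss ei ex 1) = ss ei ex eb := by
    unfold Ub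
    rw [tt2_conj, ss_mul]
    congr 1
    ext
    · simp [eb, ex]
    · simp [eb, ex]
    · simp [eb, ex]
    · simp [eb, ex]
  refine ⟨MM ei ex, inferInstance, tt1 ei ex, tt2 ei ex, ss ei ex 1, ?_, ?_⟩
  · rw [hUa, hUb]
    unfold Wab
    have hx : tt1 ei ex * tt2 ei ex * ss ei ex ea * (tt2 ei ex)⁻¹ * (tt1 ei ex)⁻¹ =
        tt1 ei ex * (tt2 ei ex * ss ei ex ea * (tt2 ei ex)⁻¹) * (tt1 ei ex)⁻¹ := by group
    have h4 : ∀ g : MM ei ex, g ^ 4 = (g * g) * (g * g) := fun g => by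
      rw [pow_succ, pow_succ, pow_succ, pow_one, mul_assoc (g * g)]
    rw [hx, h4, pow_two, pow_two, pow_two, ss_inv]
    simp only [tt1_conj, tt2_conj, ss_mul]
    congr 1
    ext
    · simp [ea, eb, ei, ex]
      ring
    · simp [ea, eb, ei, ex]
      ring
    · simp [ea, eb, ei, ex]
      ring
    · simp [ea, eb, ei, ex]
      ring
  · intro f hf
    rw [hUa, hUb] at hf
    obtain ⟨p, q, l2, l3, h1, h2⟩ := exists_of_killed ei ex ea eb f hf
    exact no_row h1 h2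

end Pool.Agent.Y94.Quat
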