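import Mathlib
set_option autoImplicit false

/-!
Derivations of the free group of rank four with values in a ring, and the consequence for members
of free bases that are killed by a homomorphism into a semidirect product.
-/

namespace Pool.Agent.Y94.Fox

open Multiplicative

variable {S : Type} [Ring S]

/-- The action of the units of `S` on the additive group of `S` by left multiplication. -/
def act (S : Type) [Ring S] : Sˣ →* MulAut (Multiplicative S) where
  toFun u :=
    { toFun := fun s => ofAdd ((u : S) * s.toAdd)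
      invFun := fun s => ofAdd (((u⁻¹ : Sˣ) : S) * s.toAdd)
      left_inv := fun s => by simp
      right_inv := fun s => by simp
      map_mul' := fun s t => by simp [mul_add] }
  map_one' := by ext s; simp
  map_mul' u v := by ext s; simp [mul_assoc]

@[simp] theorem act_apply (u : Sˣ) (s : Multiplicative S) :
    act S u s = ofAdd ((u : S) * s.toAdd) := rfl

/-- The affine group of `S`. -/
abbrev Aff (S : Type) [Ring S] := Multiplicative S ⋊[act S] Sˣ

/-- The homomorphism into the affine group. -/
def hom (P : Fin 4 → Sˣ) (m : Fin 4 → S) : FreeGroup (Fin 4) →* Aff S :=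
  FreeGroup.lift fun j => ⟨ofAdd (m j), P j⟩

/-- The derivation with values `m j` on the generators. -/
def der (P : Fin 4 → Sˣ) (m : Fin 4 → S) (w : FreeGroup (Fin 4)) : S := (hom P m w).left.toAdd

variable (P : Fin 4 → Sˣ) (m : Fin 4 → S)

theorem hom_of (j : Fin 4) : hom P m (FreeGroup.of j) = ⟨ofAdd (m j), P j⟩ := by
  simp [hom]

theorem hom_right (w : FreeGroup (Fin 4)) : (hom P m w).right = FreeGroup.lift P w := by
  have h : (SemidirectProduct.rightHom).comp (hom P m) = FreeGroup.lift P := by
    ext j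
    simp [hom]
  exact DFunLike.congr_fun h w

theorem der_of (j : Fin 4) : der P m (FreeGroup.of j) = m j := by
  simp [der, hom_of]

theorem der_one : der P m 1 = 0 := by
  simp [der]

theorem der_mul (v w : FreeGroup (Fin 4)) :
    der P m (v * w) = der P m v + ((FreeGroup.lift P v : Sˣ) : S) * der P m w := by
  unfold der
  rw [map_mul, SemidirectProduct.mul_left, hom_right]
  rfl

theorem der_inv (w : FreeGroup (Fin 4)) :
    der P m w⁻¹ = -(((FreeGroup.lift P w)⁻¹ : Sˣ) : S) * der P m w := by
  have h := der_mul P m w⁻¹ w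
  rw [inv_mul_cancel, der_one, map_inv] at h
  rw [neg_mul]
  exact eq_neg_of_add_eq_zero_left h.symm

theorem der_eq (w : FreeGroup (Fin 4)) :
    der P m w = ∑ j, der P (Pi.single j 1) w * m j := by
  induction w using FreeGroup.induction_on with
  | C1 => simp [der_one]
  | of i =>
    simp only [der_of]
    rw [Finset.sum_eq_single i]
    · simp
    · intro j _ hj
      simp [Pi.single_eq_of_ne hj.symm]
    · simp
  | inv_of i h =>
    simp only [der_inv, der_of]
    rw [Finset.sum_eq_single i]
    · simp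
    · intro j _ hj
      simp [Pi.single_eq_of_ne hj.symm]
    · simp
  | mul v w hv hw =>
    simp only [der_mul]
    rw [hv, hw, Finset.mul_sum, ← Finset.sum_add_distrib]
    refine Finset.sum_congr rfl fun j _ => ?_
    rw [add_mul, mul_assoc]

/-- A homomorphism into the affine group with linear part `P` is determined by the derivation. -/
theorem hom_eq (D : FreeGroup (Fin 4) →* Aff S)
    (h : ∀ w, (D w).right = FreeGroup.lift P w) :
    D = hom P fun j => (D (FreeGroup.of j)).left.toAdd := by
  ext j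
  · rw [hom_of]
    rfl
  · rw [hom_of, h]
    simp

section main

variable (e1 e2 : Sˣ)

/-- the linear part on the generators -/
def PP : Fin 4 → Sˣ := ![e1, e2, 1, 1]

/-- the action of the free group of rank two -/
def psi : FreeGroup (Fin 2) →* Sˣ := FreeGroup.lift ![e1, e2]

/-- the semidirect product -/
abbrev MM := Multiplicative S ⋊[(act S).comp (psi e1 e2)] FreeGroup (Fin 2)

/-- `t1` -/
def tt1 : MM e1 e2 := ⟨1, FreeGroup.of 0⟩
/-- `t2` -/
def tt2 : MM e1 e2 := ⟨1, FreeGroup.of 1⟩
/-- elements of `S` -/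
def ss (a : S) : MM e1 e2 := ⟨ofAdd a, 1⟩

theorem ss_mul (a b : S) : ss e1 e2 a * ss e1 e2 b = ss e1 e2 (a + b) := by
  ext <;> simp [ss]

theorem ss_inv (a : S) : (ss e1 e2 a)⁻¹ = ss e1 e2 (-a) := by
  rw [inv_eq_iff_mul_eq_one, ss_mul, add_neg_cancel]
  rfl

theorem conj_ss (g : FreeGroup (Fin 2)) (a : S) :
    (⟨1, g⟩ : MM e1 e2) * ss e1 e2 a * (⟨1, g⟩ : MM e1 e2)⁻¹ =
      ss e1 e2 ((psi e1 e2 g : Sˣ) * a) := by
  ext <;> simp [ss]

theorem tt1_conj (a : S) : tt1 e1 e2 * ss e1 e2 a * (tt1 e1 e2)⁻¹ = ss e1 e2 (e1 * a) := by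
  rw [tt1, conj_ss]
  simp [psi]

theorem tt2_conj (a : S) : tt2 e1 e2 * ss e1 e2 a * (tt2 e1 e2)⁻¹ = ss e1 e2 (e2 * a) := by
  rw [tt2, conj_ss]
  simp [psi]

/-- If a member of a free basis is killed by the homomorphism with the values `t1, t2, a, b`,
then there are `p, q, l2, l3` in `S` with `p a + q b = 0` and `p l2 + q l3 = 1`. -/
theorem exists_of_killed (a b : S) (f : FreeGroup (Fin 4) ≃* FreeGroup (Fin 4))
    (hf : FreeGroup.lift ![tt1 e1 e2, tt2 e1 e2, ss e1 e2 a, ss e1 e2 b] (f (FreeGroup.of 3)) = 1) :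
    ∃ p q l2 l3 : S, p * a + q * b = 0 ∧ p * l2 + q * l3 = 1 := by
  set w := f (FreeGroup.of 3) with hw
  set Phi : FreeGroup (Fin 4) →* MM e1 e2 :=
    FreeGroup.lift ![tt1 e1 e2, tt2 e1 e2, ss e1 e2 a, ss e1 e2 b] with hPhi
  -- the first two derivatives vanish
  have hfac : ∀ c0 c1 : S, der (PP e1 e2) ![c0, c1, 0, 0] w = 0 := by
    intro c0 c1
    have h1 : hom (PP e1 e2) ![c0, c1, 0, 0] =
        ((FreeGroup.lift ![(⟨ofAdd c0, e1⟩ : Aff S), ⟨ofAdd c1, e2⟩]).comp
          SemidirectProduct.rightHom).comp Phi := by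
      ext j
      · fin_cases j <;> simp [hom_of, hPhi, PP, tt1, tt2, ss]
      · fin_cases j <;> simp [hom_of, hPhi, PP, tt1, tt2, ss]
    unfold der
    rw [h1]
    simp only [MonoidHom.comp_apply]
    rw [hf]
    simp
  have h0 : der (PP e1 e2) (Pi.single 0 1) w = 0 := by
    have h := hfac 1 0
    have e : (![1, 0, 0, 0] : Fin 4 → S) = Pi.single 0 1 := by
      ext j
      fin_cases j <;> simp
    rwa [e] at h
  have h1 : der (PP e1 e2) (Pi.single 1 1) w = 0 := by
    have h := hfac 0 1
    have e : (![0, 1, 0, 0] : Fin 4 → S) = Pi.single 1 1 := by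
      ext j
      fin_cases j <;> simp
    rwa [e] at h
  -- the value of the fourth derivation
  have h2 : der (PP e1 e2) ![0, 0, a, b] w = 0 := by
    let ι : MM e1 e2 →* Aff S :=
      SemidirectProduct.map (MonoidHom.id (Multiplicative S)) (psi e1 e2) (fun g => by
        ext s; simp)
    have h3 : hom (PP e1 e2) ![0, 0, a, b] = ι.comp Phi := by
      have hP : ∀ j, Phi (FreeGroup.of j) =
          (![tt1 e1 e2, tt2 e1 e2, ss e1 e2 a, ss e1 e2 b] : Fin 4 → MM e1 e2) j := fun j => by
        simp [hPhi]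
      ext j
      · rw [hom_of, MonoidHom.comp_apply, hP]
        fin_cases j <;> rfl
      · rw [hom_of, MonoidHom.comp_apply, hP]
        fin_cases j
        · show ((e1 : Sˣ) : S) = (psi e1 e2 (FreeGroup.of 0) : Sˣ)
          simp [psi]
        · show ((e2 : Sˣ) : S) = (psi e1 e2 (FreeGroup.of 1) : Sˣ)
          simp [psi]
        · show ((1 : Sˣ) : S) = (psi e1 e2 1 : Sˣ)
          simp
        · show ((1 : Sˣ) : S) = (psi e1 e2 1 : Sˣ)
          simp
    unfold der
    rw [h3]
    simp only [MonoidHom.comp_apply]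
    rw [hf]
    simp
  -- the derivation dual to the basis
  have h4 : ∃ l : Fin 4 → S, der (PP e1 e2) l w = 1 := by
    let D : FreeGroup (Fin 4) →* Aff S :=
      (FreeGroup.lift fun j => (⟨ofAdd ((Pi.single 3 1 : Fin 4 → S) j),
        FreeGroup.lift (PP e1 e2) (f (FreeGroup.of j))⟩ : Aff S)).comp f.symm.toMonoidHom
    have hD : ∀ v, (D v).right = FreeGroup.lift (PP e1 e2) v := by
      intro v
      have h5 : (SemidirectProduct.rightHom.comp D).comp f.toMonoidHom =
          (FreeGroup.lift (PP e1 e2)).comp f.toMonoidHom := by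
        ext j
        simp [D]
      have h6 := DFunLike.congr_fun h5 (f.symm v)
      simpa using h6
    refine ⟨fun j => (D (FreeGroup.of j)).left.toAdd, ?_⟩
    unfold der
    rw [← hom_eq (PP e1 e2) D hD]
    simp [D, hw]
  obtain ⟨l, hl⟩ := h4
  rw [der_eq, Fin.sum_univ_four, h0, h1] at h2 hl
  simp only [zero_mul, zero_add] at h2 hl
  exact ⟨_, _, _, _, by simpa using h2, hl⟩

end main

end Pool.Agent.Y94.Fox
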